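import Pool.Agent.Y230.TL.Stm
import Pool.Agent.Y230.TH.Jet

set_option autoImplicit false
set_option linter.unusedSectionVars false
set_option linter.unusedVariables false

/-! # The jet functional and the local Thom-Sebastiani step (job TL230-J, helper448; adaptation of
`ts_jet` in `Pool.Agent.Y230.TH.Jet`) -/

namespace Pool.Agent.Y448.TL

open MvPolynomial
open Pool.Agent.W574.SM Pool.Agent.W574.HS Pool.Agent.W574.RO Pool.Agent.Y229
open Pool.Agent.Y230.TH (kf kd W mem_W_of_le cfc coeff_gen)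
open Pool.Agent.Y230.TL

variable {σ τ ι : Type} [Fintype ι] [DecidableEq ι]

/-- a linear form which vanishes on the kernel factors -/
theorem extend {E F : Type} [AddCommGroup E] [Module ℂ E] [AddCommGroup F] [Module ℂ F]
    (π : E →ₗ[ℂ] F) (L : E →ₗ[ℂ] ℂ) (hker : LinearMap.ker π ≤ LinearMap.ker L) :
    ∃ ψ : F →ₗ[ℂ] ℂ, ψ.comp π = L := by
  obtain ⟨s, hs⟩ := LinearMap.exists_rightInverse_of_surjective π.rangeRestrict
    (LinearMap.range_rangeRestrict π)
  obtain ⟨ψ, hψ⟩ := LinearMap.exists_extend (p := LinearMap.range π) (L.comp s)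
  refine ⟨ψ, LinearMap.ext fun q => ?_⟩
  have h1 : ψ (π q) = (L.comp s) (π.rangeRestrict q) := by
    rw [← hψ]
    rfl
  change ψ (π q) = L q
  rw [h1, LinearMap.comp_apply]
  have h2 : s (π.rangeRestrict q) - q ∈ LinearMap.ker π := by
    rw [LinearMap.mem_ker, map_sub]
    have h3 := LinearMap.congr_fun hs (π.rangeRestrict q)
    have h4 := congrArg Subtype.val h3
    change π (s (π.rangeRestrict q)) = π q at h4
    rw [h4, sub_self]
  have h3 := hker h2
  rw [LinearMap.mem_ker, map_sub, sub_eq_zero] at h3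
  exact h3

/-- `k ↦ B(z, k) g ^ k` -/
noncomputable def mgB (g : MvPolynomial τ ℂ) :
    Polynomial (MvPolynomial τ ℂ) →ₗ[ℂ] (ℕ → MvPolynomial τ ℂ) where
  toFun B := fun k => B.eval (k : MvPolynomial τ ℂ) * g ^ k
  map_add' a b := by
    funext k
    rw [Polynomial.eval_add, add_mul]
    rfl
  map_smul' r b := by
    funext k
    rw [Polynomial.eval_smul, smul_mul_assoc]
    rfl

/-- `B ↦ B(q, β)` -/
noncomputable def evB (q : τ → ℂ) (β : ℂ) : Polynomial (MvPolynomial τ ℂ) →ₗ[ℂ] ℂ where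
  toFun B := eval q (B.eval (C β))
  map_add' a b := by rw [Polynomial.eval_add, map_add]
  map_smul' r b := by rw [Polynomial.eval_smul, smul_eval, RingHom.id_apply, smul_eq_mul]

theorem exists_psiB (hA : StA) (g : MvPolynomial τ ℂ) (hg : g ≠ 0) (q : τ → ℂ) (β : ℂ)
    (hβ : RF g q β) :
    ∃ ψ : (ℕ → MvPolynomial τ ℂ) →ₗ[ℂ] ℂ, (∀ v ∈ W g, ψ v = 0) ∧
      ∀ B : Polynomial (MvPolynomial τ ℂ),
        ψ (fun k : ℕ => B.eval (k : MvPolynomial τ ℂ) * g ^ k) = eval q (B.eval (C β)) := by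
  have hker : LinearMap.ker ((W g).mkQ.comp (mgB g)) ≤ LinearMap.ker (evB q β) := by
    intro B hB
    have h1 : mgB g B ∈ W g := by
      have : (W g).mkQ (mgB g B) = 0 := hB
      rwa [Submodule.mkQ_apply, Submodule.Quotient.mk_eq_zero] at this
    obtain ⟨P, hP⟩ := hA g hg B h1
    exact hβ B P hP
  obtain ⟨ψ, hψ⟩ := extend _ _ hker
  refine ⟨ψ.comp (W g).mkQ, fun v hv => ?_, fun b => ?_⟩
  · rw [LinearMap.comp_apply, Submodule.mkQ_apply, (Submodule.Quotient.mk_eq_zero _).2 hv, map_zero]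
  · exact LinearMap.congr_fun hψ b

theorem span_prod (c : MvPolynomial (σ ⊕ τ) ℂ) : c ∈ Submodule.span ℂ
    {x : MvPolynomial (σ ⊕ τ) ℂ | ∃ (a : MvPolynomial σ ℂ) (b : MvPolynomial τ ℂ),
      x = rename Sum.inl a * rename Sum.inr b} := by
  induction c using MvPolynomial.induction_on with
  | C a => exact Submodule.subset_span ⟨C a, 1, by rw [rename_C, map_one, mul_one]⟩
  | add p q hp hq => exact Submodule.add_mem _ hp hq
  | mul_X p i hp =>
    induction hp using Submodule.span_induction with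
    | mem x hx =>
      obtain ⟨a, b, rfl⟩ := hx
      rcases i with i | i
      · exact Submodule.subset_span ⟨a * X i, b, by rw [map_mul, rename_X]; ring⟩
      · exact Submodule.subset_span ⟨a, b * X i, by rw [map_mul, rename_X]; ring⟩
    | zero =>
      rw [zero_mul]
      exact Submodule.zero_mem _
    | add x y _ _ hx hy =>
      rw [add_mul]
      exact Submodule.add_mem _ hx hy
    | smul r x _ hx =>
      rw [smul_mul_assoc]
      exact Submodule.smul_mem _ _ hx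

/-- the value of `z` is `q` -/
noncomputable def evq (q : τ → ℂ) : MvPolynomial (σ ⊕ τ) ℂ →ₐ[ℂ] MvPolynomial σ ℂ :=
  aeval (Sum.elim X (fun t => C (q t)))

theorem evq_inl (q : τ → ℂ) (a : MvPolynomial σ ℂ) : evq q (rename Sum.inl a) = a := by
  rw [evq, aeval_rename, Sum.elim_comp_inl, aeval_X_left_apply]

theorem evq_inr (q : τ → ℂ) (b : MvPolynomial τ ℂ) :
    (evq q (rename Sum.inr b) : MvPolynomial σ ℂ) = C (eval q b) := by
  rw [evq, aeval_rename, Sum.elim_comp_inr]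
  induction b using MvPolynomial.induction_on with
  | C a => simp
  | add p r hp hr => rw [map_add, hp, hr, map_add, map_add]
  | mul_X p i hp => rw [map_mul, hp, aeval_X, map_mul, eval_X, map_mul]

/-- the left side as a linear map -/
noncomputable def LL (g : MvPolynomial τ ℂ) (ψ : (ℕ → MvPolynomial τ ℂ) →ₗ[ℂ] ℂ) (S : ℕ)
    (u : MvPolynomial σ ℂ) (mon : σ →₀ ℕ) :
    Polynomial (MvPolynomial (σ ⊕ τ) ℂ) →ₗ[ℂ] ℂ where
  toFun b0 := ψ (fun k : ℕ => cof mon (b0.eval ((S + k : ℕ) : MvPolynomial (σ ⊕ τ) ℂ) *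
    (rename Sum.inl u * rename Sum.inr (g ^ k))))
  map_add' a b := by
    rw [← map_add]
    congr 1
    funext k
    rw [Pi.add_apply, Polynomial.eval_add, add_mul, map_add]
  map_smul' r b := by
    rw [RingHom.id_apply, ← map_smul]
    congr 1
    funext k
    rw [Pi.smul_apply, Polynomial.eval_smul, smul_mul_assoc, map_smul]

/-- the right side as a linear map -/
noncomputable def RR (q : τ → ℂ) (γ : ℂ) (u : MvPolynomial σ ℂ) (mon : σ →₀ ℕ) :
    Polynomial (MvPolynomial (σ ⊕ τ) ℂ) →ₗ[ℂ] ℂ where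
  toFun b0 := coeff mon ((b0.eval₂ ((evq q : MvPolynomial (σ ⊕ τ) ℂ →ₐ[ℂ] MvPolynomial σ ℂ) :
    MvPolynomial (σ ⊕ τ) ℂ →+* MvPolynomial σ ℂ) (C γ)) * u)
  map_add' a b := by
    rw [Polynomial.eval₂_add, add_mul, coeff_add]
  map_smul' r b := by
    have e : r • b = Polynomial.C (C r) * b := by
      ext n : 1
      rw [Polynomial.coeff_smul, Polynomial.coeff_C_mul, smul_eq_C_mul]
    rw [e, Polynomial.eval₂_mul, Polynomial.eval₂_C, RingHom.coe_coe, ← algebraMap_eq,
      AlgHom.commutes, algebraMap_eq, mul_assoc, coeff_C_mul, RingHom.id_apply, smul_eq_mul]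

theorem lin (g : MvPolynomial τ ℂ) (q : τ → ℂ) (β : ℂ) (ψ : (ℕ → MvPolynomial τ ℂ) →ₗ[ℂ] ℂ)
    (hψ : ∀ B : Polynomial (MvPolynomial τ ℂ),
      ψ (fun k : ℕ => B.eval (k : MvPolynomial τ ℂ) * g ^ k) = eval q (B.eval (C β)))
    (S : ℕ) (u : MvPolynomial σ ℂ) (mon : σ →₀ ℕ) (b0 : Polynomial (MvPolynomial (σ ⊕ τ) ℂ)) :
    LL g ψ S u mon b0 = RR q ((S : ℂ) + β) u mon b0 := by
  induction b0 using Polynomial.induction_on' with
  | add p r hp hr => rw [map_add, map_add, hp, hr]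
  | monomial n c =>
    refine LinearMap.eqOn_span (f := (LL g ψ S u mon).comp
      ((Polynomial.monomial n : MvPolynomial (σ ⊕ τ) ℂ →ₗ[MvPolynomial (σ ⊕ τ) ℂ]
        Polynomial (MvPolynomial (σ ⊕ τ) ℂ)).restrictScalars ℂ))
      (g := (RR q ((S : ℂ) + β) u mon).comp
      ((Polynomial.monomial n : MvPolynomial (σ ⊕ τ) ℂ →ₗ[MvPolynomial (σ ⊕ τ) ℂ]
        Polynomial (MvPolynomial (σ ⊕ τ) ℂ)).restrictScalars ℂ)) ?_ (span_prod c)
    rintro x ⟨a, b, rfl⟩
    change ψ (fun k : ℕ => cof mon ((Polynomial.monomial n (rename Sum.inl a *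
      rename Sum.inr b)).eval ((S + k : ℕ) : MvPolynomial (σ ⊕ τ) ℂ) *
        (rename Sum.inl u * rename Sum.inr (g ^ k)))) =
      coeff mon (((Polynomial.monomial n (rename Sum.inl a * rename Sum.inr b)).eval₂
        ((evq q : MvPolynomial (σ ⊕ τ) ℂ →ₐ[ℂ] MvPolynomial σ ℂ) :
          MvPolynomial (σ ⊕ τ) ℂ →+* MvPolynomial σ ℂ) (C ((S : ℂ) + β))) * u)
    have e : (fun k : ℕ => cof mon ((Polynomial.monomial n (rename Sum.inl a *
        rename Sum.inr b)).eval ((S + k : ℕ) : MvPolynomial (σ ⊕ τ) ℂ) *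
          (rename Sum.inl u * rename Sum.inr (g ^ k)))) =
        coeff mon (a * u) • (fun k : ℕ =>
          (Polynomial.C b * (Polynomial.X + Polynomial.C (C (S : ℂ))) ^ n).eval
            (k : MvPolynomial τ ℂ) * g ^ k) := by
      funext k
      have h1 : (Polynomial.monomial n (rename Sum.inl a * rename Sum.inr b)).eval
          ((S + k : ℕ) : MvPolynomial (σ ⊕ τ) ℂ) * (rename Sum.inl u * rename Sum.inr (g ^ k)) =
          rename Sum.inl (a * u) *
            rename Sum.inr (b * ((k : MvPolynomial τ ℂ) + C (S : ℂ)) ^ n * g ^ k) := by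
        have hS : (C (S : ℂ) : MvPolynomial τ ℂ) = (S : MvPolynomial τ ℂ) := map_natCast C S
        rw [Polynomial.eval_monomial, hS, map_mul, map_mul, map_mul, map_pow _ (_ + _), map_add,
          map_natCast, map_natCast, Nat.cast_add]
        ring
      rw [h1, cof_mul, Pi.smul_apply]
      congr 1
      rw [Polynomial.eval_mul, Polynomial.eval_C, Polynomial.eval_pow, Polynomial.eval_add,
        Polynomial.eval_X, Polynomial.eval_C]
    rw [e, map_smul, hψ, smul_eq_mul, Polynomial.eval₂_monomial, RingHom.coe_coe, map_mul,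
      evq_inl, evq_inr, Polynomial.eval_mul, Polynomial.eval_C, Polynomial.eval_pow,
      Polynomial.eval_add, Polynomial.eval_X, Polynomial.eval_C, map_mul, map_pow, map_add, eval_C,
      eval_C, ← map_pow (C : ℂ →+* MvPolynomial σ ℂ)]
    have h2 : a * C (eval q b) * C (((S : ℂ) + β) ^ n) * u =
        C (eval q b * ((S : ℂ) + β) ^ n) * (a * u) := by
      rw [map_mul]
      ring
    rw [h2, coeff_C_mul, add_comm (S : ℂ) β, mul_comm]

/-- **The local Thom-Sebastiani step.** -/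
theorem tJ (hA : Pool.Agent.Y230.TL.StA) (hB : Pool.Agent.Y230.TL.StB) :
    Pool.Agent.Y230.TL.StJ := by
  classical
  intro σ τ ι _ _ _ _ f g hg p q α β hf hgq B P hRE
  obtain ⟨κ, _, c, d, qq, m, R, hcd, hR⟩ := hB (fun j => rename Sum.inl (f j))
    (rename Sum.inr g) B P hRE
  obtain ⟨ψ, hψ1, hψ2⟩ := exists_psiB hA g hg q β hgq
  choose L A B' hAB using fun i => weyl_splits (R i).1 (R i).2
  set b0 : Polynomial (MvPolynomial (σ ⊕ τ) ℂ) :=
    B.map ((h0 : MvPolynomial (ι ⊕ (σ ⊕ τ)) ℂ →ₐ[ℂ] MvPolynomial (σ ⊕ τ) ℂ) :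
      MvPolynomial (ι ⊕ (σ ⊕ τ)) ℂ →+* MvPolynomial (σ ⊕ τ) ℂ) with hb0
  have hb0e : ∀ N : ℕ, h0 (B.eval (N : MvPolynomial (ι ⊕ (σ ⊕ τ)) ℂ)) =
      b0.eval (N : MvPolynomial (σ ⊕ τ) ℂ) := by
    intro N
    rw [hb0, Polynomial.eval_natCast_map]
    rfl
  set z : (i : κ) → ℕ → Fin (L i) → ℂ := fun i t l => ψ (fun k : ℕ =>
    ((k : ℂ) ^ t * kd k (d i)) • (B' i l : Module.End ℂ (MvPolynomial τ ℂ))
      (g ^ ((k : ℤ) + 1 - d i).toNat)) with hz
  have hz0 : ∀ i t l, d i ≤ 0 → z i t l = 0 := fun i t l h =>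
    hψ1 _ (mem_W_of_le g t _ h _)
  set w : AF σ ι := ∑ i ∈ Finset.univ.filter fun i => 1 ≤ d i,
    ∑ l, ∑ t ∈ Finset.range (m i + 1), z i (m i - t) l •
      gen f (tens (C (cfc (c i)) * (C ((m i).choose t : ℂ) * (∑ j, X j) ^ t * qq i)) (A i l))
        (c i) with hw
  have hwV : w ∈ V f 1 := by
    refine Submodule.sum_mem _ fun i hi => Submodule.sum_mem _ fun l _ =>
      Submodule.sum_mem _ fun t _ => Submodule.smul_mem _ _ ?_
    exact V_le f _ (hcd i (Finset.mem_filter.1 hi).2) (gen_mem f _ _ rfl)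
  have key : ∀ (s : ι → ℕ) (mon : σ →₀ ℕ),
      ψ (fun k : ℕ => cof mon (b0.eval ((∑ j, s j + k : ℕ) : MvPolynomial (σ ⊕ τ) ℂ) *
        (rename Sum.inl (∏ j, f j ^ s j) * rename Sum.inr (g ^ k)) :
          MvPolynomial (σ ⊕ τ) ℂ)) = coeff mon (w s) := by
    intro s mon
    set s' : ι →₀ ℕ := Finsupp.equivFunOnFinite.symm s with hs'
    have h1 : (fun k : ℕ => cof mon (b0.eval ((∑ j, s j + k : ℕ) : MvPolynomial (σ ⊕ τ) ℂ) *
        (rename Sum.inl (∏ j, f j ^ s j) * rename Sum.inr (g ^ k)) : MvPolynomial (σ ⊕ τ) ℂ)) =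
        ∑ i, ∑ l, ∑ t ∈ Finset.range (m i + 1),
          ((evN s' (C ((m i).choose t : ℂ) * (∑ j, X j) ^ t * qq i) * (fall (c i) s' : ℂ)) *
            coeff mon ((A i l : Module.End ℂ (MvPolynomial σ ℂ))
              (∏ j, f j ^ (sh s' (c i)) j))) • (fun k : ℕ =>
          ((k : ℂ) ^ (m i - t) * kd k (d i)) •
            (B' i l : Module.End ℂ (MvPolynomial τ ℂ))
              (g ^ ((k : ℤ) + 1 - d i).toNat)) := by
      funext k
      have h2 := hR s' k
      have h3 : (∏ j, (rename Sum.inl (f j) : MvPolynomial (σ ⊕ τ) ℂ) ^ s' j) *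
          rename Sum.inr g ^ k = rename Sum.inl (∏ j, f j ^ s j) * rename Sum.inr (g ^ k) := by
        rw [map_prod, map_pow]
        congr 1
        refine Finset.prod_congr rfl fun j _ => ?_
        rw [map_pow]
        rfl
      have h4 : (∑ j, s' j + k : ℕ) = ∑ j, s j + k := rfl
      rw [h3, h4, hb0e] at h2
      rw [h2, map_sum, Finset.sum_apply]
      refine Finset.sum_congr rfl fun i _ => ?_
      have h5 : (∏ j, (rename Sum.inl (f j) : MvPolynomial (σ ⊕ τ) ℂ) ^ (sh s' (c i)) j) *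
          rename Sum.inr g ^ ((k : ℤ) + 1 - d i).toNat =
          rename Sum.inl (∏ j, f j ^ (sh s' (c i)) j) *
            rename Sum.inr (g ^ ((k : ℤ) + 1 - d i).toNat) := by
        rw [map_prod, map_pow]
        congr 1
        refine Finset.prod_congr rfl fun j _ => ?_
        rw [map_pow]
      rw [h5, hAB, map_smul, map_sum, Finset.sum_apply, Finset.smul_sum]
      refine Finset.sum_congr rfl fun l _ => ?_
      rw [cof_mul, Finset.sum_apply]
      have h6 : ((∑ j, s j + k : ℕ) : ℂ) ^ m i = ∑ t ∈ Finset.range (m i + 1),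
          ((∑ j, s j : ℕ) : ℂ) ^ t * (k : ℂ) ^ (m i - t) * ((m i).choose t : ℂ) := by
        rw [Nat.cast_add, add_pow]
      rw [h6, Finset.sum_mul, Finset.sum_mul, Finset.sum_smul]
      refine Finset.sum_congr rfl fun t _ => ?_
      rw [Pi.smul_apply, smul_smul, smul_smul]
      congr 1
      have h7 : evN s' (C ((m i).choose t : ℂ) * (∑ j, X j) ^ t * qq i) =
          ((m i).choose t : ℂ) * ((∑ j, s j : ℕ) : ℂ) ^ t * evN s' (qq i) := by
        unfold evN
        rw [map_mul, map_mul, eval_C, map_pow, map_sum]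
        simp only [eval_X]
        push_cast
        rfl
      rw [h7]
      ring
    rw [h1]
    simp only [map_sum, map_smul]
    rw [hw, Finset.sum_apply, MvPolynomial.coeff_sum, Finset.sum_filter]
    refine Finset.sum_congr rfl fun i _ => ?_
    split_ifs with hi
    · rw [Finset.sum_apply, MvPolynomial.coeff_sum]
      refine Finset.sum_congr rfl fun l _ => ?_
      rw [Finset.sum_apply, MvPolynomial.coeff_sum]
      refine Finset.sum_congr rfl fun t _ => ?_
      rw [Pi.smul_apply, coeff_smul, coeff_gen, smul_eq_mul, smul_eq_mul, mul_comm]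
    · refine Finset.sum_eq_zero fun l _ => Finset.sum_eq_zero fun t _ => ?_
      have := hz0 i (m i - t) l (by omega)
      rw [hz] at this
      beta_reduce at this
      rw [this, smul_zero]
  -- the functional equation of `f`
  set B1 : Polynomial (MvPolynomial σ ℂ) :=
    (b0.map ((evq q : MvPolynomial (σ ⊕ τ) ℂ →ₐ[ℂ] MvPolynomial σ ℂ) :
      MvPolynomial (σ ⊕ τ) ℂ →+* MvPolynomial σ ℂ)).comp (Polynomial.X + Polynomial.C (C β))
    with hB1
  have hB1e : ∀ γ : ℂ, B1.eval (C γ) =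
      b0.eval₂ ((evq q : MvPolynomial (σ ⊕ τ) ℂ →ₐ[ℂ] MvPolynomial σ ℂ) :
        MvPolynomial (σ ⊕ τ) ℂ →+* MvPolynomial σ ℂ) (C (γ + β)) := by
    intro γ
    rw [hB1, Polynomial.eval_comp, Polynomial.eval_map, Polynomial.eval_add, Polynomial.eval_X,
      Polynomial.eval_C, map_add]
  have hfin : mulB B1 (G0 f) = w := by
    funext s
    ext mon
    rw [← key s mon]
    have h1 := lin g q β ψ hψ2 (∑ j, s j) (∏ j, f j ^ s j) mon b0
    change ψ (fun k : ℕ => cof mon (b0.eval ((∑ j, s j + k : ℕ) : MvPolynomial (σ ⊕ τ) ℂ) *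
        (rename Sum.inl (∏ j, f j ^ s j) * rename Sum.inr (g ^ k)))) =
      coeff mon ((b0.eval₂ ((evq q : MvPolynomial (σ ⊕ τ) ℂ →ₐ[ℂ] MvPolynomial σ ℂ) :
        MvPolynomial (σ ⊕ τ) ℂ →+* MvPolynomial σ ℂ) (C (((∑ j, s j : ℕ) : ℂ) + β))) *
          ∏ j, f j ^ s j) at h1
    rw [h1, mulB, hB1e]
    rfl
  have h2 := hf B1 (by rw [hfin]; exact hwV)
  rw [hB1e, hb0, Polynomial.eval₂_map] at h2
  have h3 : ∀ (E : MvPolynomial σ ℂ →+* ℂ) (G : MvPolynomial (ι ⊕ (σ ⊕ τ)) ℂ →+* MvPolynomial σ ℂ)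
      (x : MvPolynomial σ ℂ), E (B.eval₂ G x) = B.eval₂ (E.comp G) (E x) := fun E G x =>
    Polynomial.hom_eval₂ B G E x
  rw [h3, eval_C] at h2
  have h4 : eval (Sum.elim (fun _ => 0) (Sum.elim p q)) (B.eval (C (α + β))) =
      B.eval₂ (eval (Sum.elim (fun _ : ι => (0 : ℂ)) (Sum.elim p q))) (α + β) := by
    have h5 := Polynomial.hom_eval₂ B (RingHom.id _)
      (eval (Sum.elim (fun _ : ι => (0 : ℂ)) (Sum.elim p q))) (C (α + β))
    rw [RingHom.comp_id, eval_C] at h5
    exact h5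
  refine h4.trans (Eq.trans ?_ h2)
  congr 1
  refine MvPolynomial.ringHom_ext (fun r => ?_) (fun i => ?_)
  · simp [h0, evq]
  · rcases i with i | i | i
    · simp [h0, evq]
    · simp [h0, evq]
    · simp [h0, evq]

end Pool.Agent.Y448.TL
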