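import Pool.Agent.Y448.TL.A8

/-!
Project TL, task A10: the case `|A| = |B| = 3` at a special point.
-/

set_option autoImplicit false

namespace Pool.Agent.Y448.TL

open Pool.Agent.H988R2.Perc hiding X
open Pool.Agent.H988R2.Perc.T18
open Pool.Agent.H492C
open Pool.Agent.Y996.TL
open Finset Polynomial

/-! ### connectivity with the upper states -/

/-- joining `3` and `9` through a state whose only relations are `1 ~ 3` and `7 ~ 9` -/
theorem jn39 {T : St} (t1 t2 : Prop)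
    (hT : ∀ a b, T.rel a b ↔ a = b ∨ (t1 ∧ ((a = 1 ∧ b = 3) ∨ (a = 3 ∧ b = 1))) ∨
      (t2 ∧ ((a = 7 ∧ b = 9) ∨ (a = 9 ∧ b = 7)))) (R : St) :
    jn 3 9 R T ↔ R.rel 3 9 ∨ (t1 ∧ R.rel 1 9) ∨ (t2 ∧ R.rel 3 7) ∨ (t1 ∧ t2 ∧ R.rel 1 7) := by
  obtain ⟨hr, hs, ht⟩ := R.eqv
  constructor
  · intro h
    obtain ⟨W, hW⟩ : ∃ W : Prop, W ↔ (R.rel 1 9 ∨ R.rel 3 9 ∨ (t2 ∧ (R.rel 1 7 ∨ R.rel 3 7))) :=
      ⟨_, Iff.rfl⟩
    obtain ⟨S, hS⟩ : ∃ S : ℕ → Prop, ∀ a, S a ↔
      (R.rel a 9 ∨ (t2 ∧ R.rel a 7) ∨ (t1 ∧ (R.rel a 1 ∨ R.rel a 3) ∧ W)) := ⟨_, fun a => Iff.rfl⟩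
    have hR : ∀ a b, R.rel a b → ∀ c, R.rel a c ↔ R.rel b c := fun a b h c =>
      ⟨fun h1 => ht (hs h) h1, fun h1 => ht h h1⟩
    have key : ∀ a b, Relation.EqvGen (fun a b => R.rel a b ∨ T.rel a b) a b → (S a ↔ S b) := by
      intro a b hab
      induction hab with
      | rel a b h =>
        rcases h with h | h
        · rw [hS, hS, hR a b h 9, hR a b h 7, hR a b h 1, hR a b h 3]
        · rw [hT] at h
          rcases h with h | ⟨h0, h⟩ | ⟨h0, h⟩
          · rw [h]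
          · have q1 : S 1 ↔ W := by
              rw [hS]
              have := hr 1
              tauto
            have q3 : S 3 ↔ W := by
              rw [hS]
              have := hr 3
              tauto
            rcases h with ⟨rfl, rfl⟩ | ⟨rfl, rfl⟩
            · rw [q1, q3]
            · rw [q1, q3]
          · have q7 : S 7 := by
              rw [hS]
              exact Or.inr (Or.inl ⟨h0, hr 7⟩)
            have q9 : S 9 := by
              rw [hS]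
              exact Or.inl (hr 9)
            rcases h with ⟨rfl, rfl⟩ | ⟨rfl, rfl⟩
            · exact ⟨fun _ => q9, fun _ => q7⟩
            · exact ⟨fun _ => q7, fun _ => q9⟩
      | refl a => exact Iff.rfl
      | symm a b _ ih => exact ih.symm
      | trans a b c _ _ i1 i2 => exact i1.trans i2
    have h9 : S 9 := (hS 9).mpr (Or.inl (hr 9))
    have h3 := (hS 3).mp ((key 3 9 h).mpr h9)
    tauto
  · have T13 : t1 → Relation.EqvGen (fun a b => R.rel a b ∨ T.rel a b) 3 1 := fun h =>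
      Relation.EqvGen.rel _ _ (Or.inr ((hT 3 1).mpr (Or.inr (Or.inl ⟨h, Or.inr ⟨rfl, rfl⟩⟩))))
    have T79 : t2 → Relation.EqvGen (fun a b => R.rel a b ∨ T.rel a b) 7 9 := fun h =>
      Relation.EqvGen.rel _ _ (Or.inr ((hT 7 9).mpr (Or.inr (Or.inr ⟨h, Or.inl ⟨rfl, rfl⟩⟩))))
    have RR : ∀ a b, R.rel a b → Relation.EqvGen (fun a b => R.rel a b ∨ T.rel a b) a b :=
      fun a b h => Relation.EqvGen.rel _ _ (Or.inl h)
    rintro (h | ⟨h1, h⟩ | ⟨h2, h⟩ | ⟨h1, h2, h⟩)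
    · exact RR _ _ h
    · exact (T13 h1).trans _ _ _ (RR _ _ h)
    · exact (RR _ _ h).trans _ _ _ (T79 h2)
    · exact ((T13 h1).trans _ _ _ (RR _ _ h)).trans _ _ _ (T79 h2)

theorem rel_JJ (a b : ℕ) : (comb 3 J J).rel a b ↔
    a = b ∨ (True ∧ ((a = 1 ∧ b = 3) ∨ (a = 3 ∧ b = 1))) ∨
      (True ∧ ((a = 7 ∧ b = 9) ∨ (a = 9 ∧ b = 7))) := by
  show (a = b ∨ (a < 2*3 ∧ b < 2*3 ∧ J.rel a b) ∨
    (2*3 ≤ a ∧ 2*3 ≤ b ∧ J.rel (a - 2*3) (b - 2*3))) ↔ _
  rw [rel_J, rel_J, true_and, true_and]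
  omega

theorem rel_J0 (a b : ℕ) : (comb 3 J St.bot).rel a b ↔
    a = b ∨ (True ∧ ((a = 1 ∧ b = 3) ∨ (a = 3 ∧ b = 1))) ∨
      (False ∧ ((a = 7 ∧ b = 9) ∨ (a = 9 ∧ b = 7))) := by
  show (a = b ∨ (a < 2*3 ∧ b < 2*3 ∧ J.rel a b) ∨
    (2*3 ≤ a ∧ 2*3 ≤ b ∧ a - 2*3 = b - 2*3)) ↔ _
  rw [rel_J, true_and, false_and, or_false]
  omega

theorem rel_0J (a b : ℕ) : (comb 3 St.bot J).rel a b ↔
    a = b ∨ (False ∧ ((a = 1 ∧ b = 3) ∨ (a = 3 ∧ b = 1))) ∨
      (True ∧ ((a = 7 ∧ b = 9) ∨ (a = 9 ∧ b = 7))) := by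
  show (a = b ∨ (a < 2*3 ∧ b < 2*3 ∧ a = b) ∨
    (2*3 ≤ a ∧ 2*3 ≤ b ∧ J.rel (a - 2*3) (b - 2*3))) ↔ _
  rw [rel_J, true_and, false_and, false_or]
  omega

theorem rel_00 (a b : ℕ) : (comb 3 St.bot St.bot).rel a b ↔
    a = b ∨ (False ∧ ((a = 1 ∧ b = 3) ∨ (a = 3 ∧ b = 1))) ∨
      (False ∧ ((a = 7 ∧ b = 9) ∨ (a = 9 ∧ b = 7))) := by
  show (a = b ∨ (a < 2*3 ∧ b < 2*3 ∧ a = b) ∨
    (2*3 ≤ a ∧ 2*3 ≤ b ∧ a - 2*3 = b - 2*3)) ↔ _
  rw [false_and, false_and, or_false, or_false]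
  omega

theorem comb2_four (a b c d : ℂ) :
    comb2 3 (Finsupp.single J a + Finsupp.single St.bot b)
      (Finsupp.single J c + Finsupp.single St.bot d) =
    Finsupp.single (comb 3 J J) (a * c) + Finsupp.single (comb 3 J St.bot) (a * d) +
      (Finsupp.single (comb 3 St.bot J) (b * c) + Finsupp.single (comb 3 St.bot St.bot) (b * d)) := by
  have h1 : ∀ (R : St) (t : ℂ), ((Finsupp.single J c + Finsupp.single St.bot d : St →₀ ℂ).sum
      fun R' b => Finsupp.single (comb 3 R R') (t * b)) =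
      Finsupp.single (comb 3 R J) (t * c) + Finsupp.single (comb 3 R St.bot) (t * d) := by
    intro R t
    rw [Finsupp.sum_add_index' (by simp) (by intro R' b1 b2; rw [mul_add, Finsupp.single_add]),
      Finsupp.sum_single_index (by simp), Finsupp.sum_single_index (by simp)]
  unfold comb2
  simp only [h1]
  rw [Finsupp.sum_add_index' (by simp) (by
      intro R' b1 b2
      rw [add_mul, add_mul, Finsupp.single_add, Finsupp.single_add]
      abel),
    Finsupp.sum_single_index (by simp), Finsupp.sum_single_index (by simp)]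

/-- the reduced lower vector -/
theorem lower (x y w : ℂ) : Psi [x, y, q, 1, 1, 1, q^2, q^2 * y, w, 0] =
    (fac q [x, y, 1, 1, q^2, q^2 * y, w, 0] * fac 1 [x, y, 1, q^2 * y, w, 0]) •
      Finsupp.mapDomain (fun R => St.ins 2 (St.ins 3 R)) (Psi [x, y, 1, q^2 * y, w, 0]) := by
  have h3 := q_cube
  have hq2 : q^2 * q = 1 := by linear_combination h3
  have h1 : Psi [x, y, q, 1, 1, 1, q^2, q^2 * y, w, 0] =
      fac q [x, y, 1, 1, q^2, q^2 * y, w, 0] •
        Finsupp.mapDomain (St.ins 2) (Psi [x, y, 1, 1, q^2, q^2 * y, w, 0]) := by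
    have := Psi_rec [x, y] [1, 1, q^2, q^2 * y, w, 0] q ⟨4, rfl⟩
    rw [hq2] at this
    exact this
  have h2 : Psi [x, y, 1, 1, q^2, q^2 * y, w, 0] =
      fac 1 [x, y, 1, q^2 * y, w, 0] •
        Finsupp.mapDomain (St.ins 3) (Psi [x, y, 1, q^2 * y, w, 0]) := by
    have := Psi_rec [x, y, 1] [q^2 * y, w, 0] 1 ⟨3, rfl⟩
    rw [mul_one] at this
    exact this
  rw [h1, h2, Finsupp.mapDomain_smul, smul_smul]
  congr 1
  rw [← Finsupp.mapDomain_comp]
  rfl

theorem GR3_three (x y w : ℂ) : GR3 [x, y, q] [q^2, q^2 * y, w] =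
    pr3 3 9 (Psi [x, y, q, 1, 1, 1, q^2, q^2 * y, w, 0])
      (comb2 3 (Psi [x⁻¹, y⁻¹, q⁻¹, 0]) (Psi [(q^2)⁻¹, (q^2 * y)⁻¹, w⁻¹, 0])) := by
  have e1 : ([x, y, q] : List ℂ).length = 3 := rfl
  have e2 : ([q^2, q^2 * y, w] : List ℂ).length = 3 := rfl
  have e3 : (3 + 3 + 3 : ℕ) = 9 := rfl
  have e4 : ((3 + 3) / 2 : ℕ) = 3 := rfl
  have e5 : up1 [x, y, q] = Psi [x⁻¹, y⁻¹, q⁻¹, 0] := rfl
  have e6 : up1 [q^2, q^2 * y, w] = Psi [(q^2)⁻¹, (q^2 * y)⁻¹, w⁻¹, 0] := rfl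
  have e7 : ([x, y, q] ++ 1 :: 1 :: 1 :: ([q^2, q^2 * y, w] ++ [0]) : List ℂ) =
    [x, y, q, 1, 1, 1, q^2, q^2 * y, w, 0] := rfl
  unfold GR3
  rw [e1, e2, e3, e4, e5, e6, e7]

/-- the difference of the two masses -/
noncomputable def dv (T : St) (f : St →₀ ℂ) : ℂ :=
  msr (fun R => jn 3 9 (St.act 3 R) T) f - msr (fun R => jn 3 9 R T) f

theorem GR3_dv (x y w a b c d : ℂ)
    (h1 : Psi [x⁻¹, y⁻¹, q⁻¹, 0] = Finsupp.single J a + Finsupp.single St.bot b)
    (h2 : Psi [(q^2)⁻¹, (q^2 * y)⁻¹, w⁻¹, 0] = Finsupp.single J c + Finsupp.single St.bot d) :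
    GR3 [x, y, q] [q^2, q^2 * y, w] =
      a * c * dv (comb 3 J J) (Psi [x, y, q, 1, 1, 1, q^2, q^2 * y, w, 0]) +
      a * d * dv (comb 3 J St.bot) (Psi [x, y, q, 1, 1, 1, q^2, q^2 * y, w, 0]) +
      (b * c * dv (comb 3 St.bot J) (Psi [x, y, q, 1, 1, 1, q^2, q^2 * y, w, 0]) +
      b * d * dv (comb 3 St.bot St.bot) (Psi [x, y, q, 1, 1, 1, q^2, q^2 * y, w, 0])) := by
  rw [GR3_three, h1, h2, comb2_four, pr3_add, pr3_add, pr3_add, pr3_single, pr3_single,
    pr3_single, pr3_single]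
  rfl

theorem RH3_three (x y w : ℂ) (hx : x ≠ 0) (hy : y ≠ 0) (hw : w ≠ 0) :
    RH3 [x, y, q] [q^2, q^2 * y, w] * (x * y^2 * w) =
      9 * fac q [x, y] * fac 1 [q^2 * y, w] *
        (fac q [x, y, 1, q^2, q^2 * y, w] * (fac 1 [x, y, q^2 * y, w] * fac y [x, w])) := by
  have h3 := q_cube
  have hq2 : q^2 * q = 1 := by linear_combination h3
  have hq0 := q_ne_zero
  have z1 : Z ([x, y, q] ++ [1]) = fac q [x, y] := by
    have := Z_rec [x, y] [] q ⟨1, rfl⟩
    rw [hq2] at this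
    have e : ([x, y] ++ [] : List ℂ) = [x, y] := rfl
    rw [e, Z_two, mul_one] at this
    exact this
  have z2 : Z ([q^2, q^2 * y, w] ++ [1]) = fac 1 [q^2 * y, w] := by
    have h1 : Z ([q^2, q^2 * y, w] ++ [1]) = Z [1, q^2, q^2 * y, w] :=
      Z_perm ⟨2, rfl⟩ (List.perm_append_comm (l₁ := [q^2, q^2 * y, w]) (l₂ := [1]))
    have := Z_rec [] [q^2 * y, w] 1 ⟨1, rfl⟩
    rw [mul_one] at this
    have e : ([] ++ [q^2 * y, w] : List ℂ) = [q^2 * y, w] := rfl
    rw [e, Z_two, mul_one] at this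
    rw [h1]
    exact this
  have z3 : Z ([x, y, q] ++ 1 :: 1 :: [q^2, q^2 * y, w]) =
      fac q [x, y, 1, q^2, q^2 * y, w] * (fac 1 [x, y, q^2 * y, w] * fac y [x, w]) := by
    have a1 : Z ([x, y, q] ++ 1 :: 1 :: [q^2, q^2 * y, w]) =
        fac q [x, y, 1, q^2, q^2 * y, w] * Z [x, y, 1, q^2, q^2 * y, w] := by
      have := Z_rec [x, y] [1, q^2, q^2 * y, w] q ⟨3, rfl⟩
      rw [hq2] at this
      exact this
    have a2 : Z [x, y, 1, q^2, q^2 * y, w] = fac 1 [x, y, q^2 * y, w] * Z [x, y, q^2 * y, w] := by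
      have := Z_rec [x, y] [q^2 * y, w] 1 ⟨2, rfl⟩
      rw [mul_one] at this
      exact this
    have a3 : Z [x, y, q^2 * y, w] = fac y [x, w] := by
      have := Z_rec [x] [w] y ⟨1, rfl⟩
      have e : ([x] ++ [w] : List ℂ) = [x, w] := rfl
      rw [e, Z_two, mul_one] at this
      exact this
    rw [a1, a2, a3]
  unfold RH3
  rw [z1, z2, z3]
  have e4 : (([x, y, q] : List ℂ).length : ℤ) = 3 := rfl
  have e5 : (([q^2, q^2 * y, w] : List ℂ).length : ℤ) = 3 := rfl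
  have e6 : (2 - 3 : ℤ) = -1 := rfl
  have e7 : ([x, y, q] : List ℂ).length + ([q^2, q^2 * y, w] : List ℂ).length + 2 = 8 := rfl
  have e8 : ([x, y, q] : List ℂ).prod = x * y * q := by simp; ring
  have e9 : ([q^2, q^2 * y, w] : List ℂ).prod = q^4 * y * w := by simp; ring
  rw [e4, e5, e6, e7, e8, e9, zpow_neg_one, zpow_neg_one]
  generalize fac q [x, y, 1, q^2, q^2 * y, w] * (fac 1 [x, y, q^2 * y, w] * fac y [x, w]) = V
  generalize fac q [x, y] = U1
  generalize fac 1 [q^2 * y, w] = U2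
  have i1 : (x * y * q)⁻¹ * (x * y * q) = 1 := inv_mul_cancel₀ (by simp [hx, hy, hq0])
  have i2 : (q^4 * y * w)⁻¹ * (q^4 * y * w) = 1 := inv_mul_cancel₀ (by simp [hw, hy, hq0])
  generalize (x * y * q)⁻¹ = I1 at *
  generalize (q^4 * y * w)⁻¹ = I2 at *
  linear_combination (9 * U1 * U2 * V * q^3 * (I2 * (q^4 * y * w))) * i1 +
    (9 * U1 * U2 * V * q^3) * i2 + (9 * U1 * U2 * V) * h3

open Classical in
/-- the difference of the indicators on the reduced states -/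
noncomputable def dd (T R : St) : ℂ :=
  (if jn 3 9 (St.act 3 (St.ins 2 (St.ins 3 R))) T then 1 else 0) -
    (if jn 3 9 (St.ins 2 (St.ins 3 R)) T then 1 else 0)

theorem dv_four (T : St) (h : St → St) (F f0 g0 : ℂ) :
    dv T (Finsupp.mapDomain (fun R => St.ins 2 (St.ins 3 R)) (Finsupp.mapDomain h
      (F • Finsupp.mapDomain (St.ins 1) (Finsupp.single J f0 + Finsupp.single St.bot g0)))) =
      F * (f0 * dd T (h (St.ins 1 J)) + g0 * dd T (h (St.ins 1 St.bot))) := by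
  unfold dv dd
  rw [msr_map, msr_map, msr_map, msr_map, msr_four, msr_four]
  ring

theorem dv_smul (T : St) (c : ℂ) (f : St →₀ ℂ) : dv T (c • f) = c * dv T f := by
  unfold dv
  rw [msr_smul, msr_smul, mul_sub]

theorem dv_add (T : St) (f g : St →₀ ℂ) : dv T (f + g) = dv T f + dv T g := by
  unfold dv
  rw [msr_add, msr_add]
  ring

theorem dv_lower (T : St) (x y w : ℂ) :
    (q * (q^2 * y) - q^2) * dv T (Psi [x, y, q, 1, 1, 1, q^2, q^2 * y, w, 0]) =
      (fac q [x, y, 1, 1, q^2, q^2 * y, w, 0] * fac 1 [x, y, 1, q^2 * y, w, 0]) *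
        (fac y [x, 1, w, 0] *
        ((q - q^2 * (q^2 * y)) * (f [x, 1, w, 0] * dd T (St.ins 1 J) +
          g [x, 1, w, 0] * dd T (St.ins 1 St.bot)) +
        (1 - q^2 * y) * (f [x, 1, w, 0] * dd T (St.act 2 (St.ins 1 J)) +
          g [x, 1, w, 0] * dd T (St.act 2 (St.ins 1 St.bot))))) := by
  have h1 : (q * (q^2 * y) - q^2 * 1) • Psi [x, y, 1, q^2 * y, w, 0] =
      (q * 1 - q^2 * (q^2 * y)) • Psi [x, y, q^2 * y, 1, w, 0] +
        (1 - q^2 * y) • Finsupp.mapDomain (St.act 2) (Psi [x, y, q^2 * y, 1, w, 0]) :=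
    Psi_exch [x, y] [w, 0] (q^2 * y) 1 ⟨2, rfl⟩
  have h2 : Psi [x, y, q^2 * y, 1, w, 0] = fac y [x, 1, w, 0] •
      Finsupp.mapDomain (St.ins 1) (Psi [x, 1, w, 0]) := Psi_rec [x] [1, w, 0] y ⟨2, rfl⟩
  have h4 := Psi_four [x, 1, w, 0] rfl
  have a1 := dv_four T id (fac y [x, 1, w, 0]) (f [x, 1, w, 0]) (g [x, 1, w, 0])
  have a2 := dv_four T (St.act 2) (fac y [x, 1, w, 0]) (f [x, 1, w, 0]) (g [x, 1, w, 0])
  rw [Finsupp.mapDomain_id, ← h4, ← h2] at a1
  rw [← h4, ← h2] at a2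
  rw [mul_one, mul_one] at h1
  rw [lower, dv_smul]
  generalize fac q [x, y, 1, 1, q^2, q^2 * y, w, 0] * fac 1 [x, y, 1, q^2 * y, w, 0] = C
  have h5 : (q * (q^2 * y) - q^2) *
      dv T (Finsupp.mapDomain (fun R => St.ins 2 (St.ins 3 R)) (Psi [x, y, 1, q^2 * y, w, 0])) =
      dv T (Finsupp.mapDomain (fun R => St.ins 2 (St.ins 3 R))
        ((q * (q^2 * y) - q^2) • Psi [x, y, 1, q^2 * y, w, 0])) := by
    rw [Finsupp.mapDomain_smul, dv_smul]
  rw [mul_left_comm, h5, h1, Finsupp.mapDomain_add, Finsupp.mapDomain_smul,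
    Finsupp.mapDomain_smul, dv_add, dv_smul, dv_smul, a1, a2]
  simp only [id]
  ring

theorem dd_JJ : dd (comb 3 J J) (St.ins 1 J) = 0 ∧ dd (comb 3 J J) (St.ins 1 St.bot) = 0 ∧
    dd (comb 3 J J) (St.act 2 (St.ins 1 J)) = 0 ∧
    dd (comb 3 J J) (St.act 2 (St.ins 1 St.bot)) = 1 := by
  unfold dd
  refine ⟨?_, ?_, ?_, ?_⟩ <;>
  · rw [jn39 _ _ rel_JJ, jn39 _ _ rel_JJ]
    simp [St.act_rel, St.ins_rel, St.low, rel_J, rel_bot]

theorem dd_J0 : dd (comb 3 J St.bot) (St.ins 1 J) = 0 ∧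
    dd (comb 3 J St.bot) (St.ins 1 St.bot) = 0 ∧
    dd (comb 3 J St.bot) (St.act 2 (St.ins 1 J)) = 0 ∧
    dd (comb 3 J St.bot) (St.act 2 (St.ins 1 St.bot)) = 0 := by
  unfold dd
  refine ⟨?_, ?_, ?_, ?_⟩ <;>
  · rw [jn39 _ _ rel_J0, jn39 _ _ rel_J0]
    simp [St.act_rel, St.ins_rel, St.low, rel_J, rel_bot]

theorem dd_0J : dd (comb 3 St.bot J) (St.ins 1 J) = 1 ∧
    dd (comb 3 St.bot J) (St.ins 1 St.bot) = 1 ∧
    dd (comb 3 St.bot J) (St.act 2 (St.ins 1 J)) = 1 ∧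
    dd (comb 3 St.bot J) (St.act 2 (St.ins 1 St.bot)) = 1 := by
  unfold dd
  refine ⟨?_, ?_, ?_, ?_⟩ <;>
  · rw [jn39 _ _ rel_0J, jn39 _ _ rel_0J]
    simp [St.act_rel, St.ins_rel, St.low, rel_J, rel_bot]

theorem dd_00 : dd (comb 3 St.bot St.bot) (St.ins 1 J) = 1 ∧
    dd (comb 3 St.bot St.bot) (St.ins 1 St.bot) = 0 ∧
    dd (comb 3 St.bot St.bot) (St.act 2 (St.ins 1 J)) = 0 ∧
    dd (comb 3 St.bot St.bot) (St.act 2 (St.ins 1 St.bot)) = 0 := by
  unfold dd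
  refine ⟨?_, ?_, ?_, ?_⟩ <;>
  · rw [jn39 _ _ rel_00, jn39 _ _ rel_00]
    simp [St.act_rel, St.ins_rel, St.low, rel_J, rel_bot]

theorem E_alg (x y w : ℂ) :
    (1 - y^3) * (-(w * (1 - q^2 * x) * (x - q^2)) + x * (q - q^2 * w) * (q - w)) -
      (x - q^2 * y) * (1 - q^2 * x * y) * (1 - q^2 * y) * (q - q^2 * w) * (q - w) -
      (w - y) * (y * w - 1) * (1 - y) * (1 - q^2 * x) * (x - q^2) =
    q^2 * y * (y - q^2) * (q - q^2 * x) * (q * x - q^2) * (1 - q^2 * w) * (w - q^2) := by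
  have h := q_spec
  generalize q = q at *
  grind

theorem a10 : S_A10 := by
  intro x y w hx hy hw
  have h := q_spec
  have h3 := q_cube
  have hq0 := q_ne_zero
  have hne : x * y^2 * w ≠ 0 := by simp [hx, hy, hw]
  apply mul_right_cancel₀ hne
  rw [RH3_three x y w hx hy hw]
  by_cases hyq : y = q^2
  · have w1 := Psi_wheel1 [x] [1] [w, 0] (q^2) ⟨2, rfl⟩ ⟨1, by simp, one_mul _⟩
    have e : ([x] ++ q^2 :: ([1] ++ (q^2 * q^2) :: [w, 0]) : List ℂ) =
      [x, q^2, 1, q^2 * q^2, w, 0] := rfl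
    rw [e] at w1
    have w2 := lower x (q^2) w
    rw [w1, Finsupp.mapDomain_zero, smul_zero] at w2
    have w3 : fac 1 [q^2 * q^2, w] = 0 := by
      unfold fac
      simp only [List.map_cons, List.map_nil, List.prod_cons, List.prod_nil]
      linear_combination (-(q^3 + 1) * (1 * (q^2 * q^2) - q^2) *
        ((1 - q^2 * w) * (1 * w - q^2) * 1)) * h3
    rw [hyq, GR3_three, w2, w3]
    simp [pr3, pairG]
  · have hD : q * (q^2 * y) - q^2 ≠ 0 := by
      intro h0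
      apply hyq
      linear_combination h0 - y * h3
    have i1 : x⁻¹ * x = 1 := inv_mul_cancel₀ hx
    have i2 : y⁻¹ * y = 1 := inv_mul_cancel₀ hy
    have i3 : w⁻¹ * w = 1 := inv_mul_cancel₀ hw
    have iq : q⁻¹ = q^2 := by
      rw [inv_eq_iff_eq_inv]
      exact eq_inv_of_mul_eq_one_left (by linear_combination h3)
    have iq2 : (q^2)⁻¹ = q := by rw [← iq, inv_inv]
    have iqy : (q^2 * y)⁻¹ = q * y⁻¹ := by rw [mul_inv, iq2]
    have d1 := dv_lower (comb 3 J J) x y w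
    have d2 := dv_lower (comb 3 J St.bot) x y w
    have d3 := dv_lower (comb 3 St.bot J) x y w
    have d4 := dv_lower (comb 3 St.bot St.bot) x y w
    rw [dd_JJ.1, dd_JJ.2.1, dd_JJ.2.2.1, dd_JJ.2.2.2] at d1
    rw [dd_J0.1, dd_J0.2.1, dd_J0.2.2.1, dd_J0.2.2.2] at d2
    rw [dd_0J.1, dd_0J.2.1, dd_0J.2.2.1, dd_0J.2.2.2] at d3
    rw [dd_00.1, dd_00.2.1, dd_00.2.2.1, dd_00.2.2.2] at d4
    rw [GR3_dv x y w _ _ _ _ (Psi_four _ rfl) (Psi_four _ rfl), iq, iq2, iqy]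
    generalize dv (comb 3 J J) (Psi [x, y, q, 1, 1, 1, q^2, q^2 * y, w, 0]) = v1 at *
    generalize dv (comb 3 J St.bot) (Psi [x, y, q, 1, 1, 1, q^2, q^2 * y, w, 0]) = v2 at *
    generalize dv (comb 3 St.bot J) (Psi [x, y, q, 1, 1, 1, q^2, q^2 * y, w, 0]) = v3 at *
    generalize dv (comb 3 St.bot St.bot) (Psi [x, y, q, 1, 1, 1, q^2, q^2 * y, w, 0]) = v4 at *
    have ha : f [x⁻¹, y⁻¹, q^2, 0] * (x^2 * y^2) = -(q^2 * (x - q^2 * y) * (1 - q^2 * x * y)) := by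
      have p1 : (y⁻¹ - q^2 * x⁻¹) * (x * y) = x - q^2 * y := by
        linear_combination x * i2 - q^2 * y * i1
      have p2 : (x⁻¹ * y⁻¹ - q^2) * (x * y) = 1 - q^2 * x * y := by
        linear_combination (y⁻¹ * y) * i1 + i2
      rw [f_formula]
      calc _ = ((y⁻¹ - q^2 * x⁻¹) * (x * y)) * ((x⁻¹ * y⁻¹ - q^2) * (x * y)) * (-(q^3 * q^2)) := by
            ring
        _ = _ := by rw [p1, p2, h3]; ring
    have hb : g [x⁻¹, y⁻¹, q^2, 0] * (x * y^2) = q^2 * (1 - y) * (y - q) := by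
      have p1 : (q * y⁻¹ - q^4) * y = q * (1 - y) := by
        linear_combination q * i2 - q * y * h3
      have p2 : (q - q^2 * y⁻¹ * q^2) * y = q * (y - 1) := by
        linear_combination (-q^4) * i2 - q * h3
      have p3 : (q - q^4 * y⁻¹) * y = q * (y - 1) := by
        linear_combination (-q^4) * i2 - q * h3
      rw [g_formula]
      unfold T18.G
      calc _ = ((q * y⁻¹ - q^4) * y) * (x⁻¹ * x) * ((q - q^2 * y⁻¹) * y) := by
            ring
        _ = _ := by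
          have p4 : (q - q^2 * y⁻¹) * y = q * (y - q) := by linear_combination (-q^2) * i2
          rw [p1, p4, i1]; ring
    have hc : f [q, q * y⁻¹, w⁻¹, 0] * (y^2 * w) = -(q^2 * (q - y) * (1 - y)) := by
      have p1 : (q * y⁻¹ - q^3) * y = q - y := by
        linear_combination q * i2 - y * h3
      have p2 : (q^2 * y⁻¹ - q^2) * y = q^2 * (1 - y) := by
        linear_combination q^2 * i2
      rw [f_formula]
      calc _ = ((q * y⁻¹ - q^3) * y) * ((q^2 * y⁻¹ - q^2) * y) * (w⁻¹ * w) * (-q^3) := by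
            ring
        _ = _ := by rw [p1, p2, i3, h3]; ring
    have hd : g [q, q * y⁻¹, w⁻¹, 0] * (y^2 * w^2) = q * (w - y) * (y * w - 1) := by
      have p1 : (q^2 * y⁻¹ - q^2 * w⁻¹) * (y * w) = q^2 * (w - y) := by
        linear_combination q^2 * w * i2 - q^2 * y * i3
      have p2 : (q - q * (y⁻¹ * w⁻¹)) * (y * w) = q * (y * w - 1) := by
        linear_combination (-q * (w⁻¹ * w)) * i2 - q * i3
      rw [g_formula]
      unfold T18.G
      calc _ = ((q^2 * y⁻¹ - q^2 * w⁻¹) * (y * w)) * q *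
            ((q - q * (y⁻¹ * w⁻¹)) * (y * w)) := by
            ring
        _ = _ := by
          rw [p1, p2]
          linear_combination (q * (w - y) * (y * w - 1)) * h3
    have hf1 : f [x, 1, w, 0] = -(w * (1 - q^2 * x) * (x - q^2)) := by
      rw [f_formula]
      linear_combination (-(w * (1 - q^2 * x) * (x - q^2))) * h3
    have hg1 : g [x, 1, w, 0] = x * (q - q^2 * w) * (q - w) := by
      rw [g_formula]
      unfold T18.G
      ring
    rw [hf1, hg1] at d1 d2 d3 d4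
    generalize f [x⁻¹, y⁻¹, q^2, 0] = a at *
    generalize g [x⁻¹, y⁻¹, q^2, 0] = b at *
    generalize f [q, q * y⁻¹, w⁻¹, 0] = c at *
    generalize g [q, q * y⁻¹, w⁻¹, 0] = d at *
    have hac : a * c * (x^2 * y^4 * w) = q^4 * (x - q^2 * y) * (1 - q^2 * x * y) *
        (q - y) * (1 - y) := by
      linear_combination (c * (y^2 * w)) * ha - (q^2 * (x - q^2 * y) * (1 - q^2 * x * y)) * hc
    have hbc : b * c * (x * y^4 * w) = q^4 * (1 - y)^2 * (y - q)^2 := by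
      linear_combination (c * (y^2 * w)) * hb + (q^2 * (1 - y) * (y - q)) * hc
    have hbd : b * d * (x * y^4 * w^2) = q^3 * (1 - y) * (y - q) * (w - y) * (y * w - 1) := by
      linear_combination (d * (y^2 * w^2)) * hb + (q^2 * (1 - y) * (y - q)) * hd
    have hCF : (fac q [x, y, 1, 1, q^2, q^2 * y, w, 0] * fac 1 [x, y, 1, q^2 * y, w, 0]) *
        fac y [x, 1, w, 0] = (fac q [x, y, 1, q^2, q^2 * y, w] *
          (fac 1 [x, y, q^2 * y, w] * fac y [x, w])) *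
        (-(q^7 * (q - q^2)^2 * (1 - q^2)^2 * y * (y - q^2)^2)) := by
      have e1 : fac q [x, y, 1, 1, q^2, q^2 * y, w, 0] =
          fac q [x, y, 1, q^2, q^2 * y, w] * (-(q^3 * (q - q^2)^2)) := by
        simp only [fac_cons, fac_nil]
        generalize (q - q^2 * x) * (q * x - q^2) = m1
        generalize (q - q^2 * y) * (q * y - q^2) = m2
        generalize (q - q^2 * (q^2 * y)) * (q * (q^2 * y) - q^2) = m3
        generalize (q - q^2 * q^2) * (q * q^2 - q^2) = m4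
        generalize (q - q^2 * w) * (q * w - q^2) = m5
        ring
      have e2 : fac 1 [x, y, 1, q^2 * y, w, 0] =
          fac 1 [x, y, q^2 * y, w] * (-(q^2 * (1 - q^2)^2)) := by
        simp only [fac_cons, fac_nil]
        generalize (1 - q^2 * x) * (1 * x - q^2) = m1
        generalize (1 - q^2 * y) * (1 * y - q^2) = m2
        generalize (1 - q^2 * (q^2 * y)) * (1 * (q^2 * y) - q^2) = m3
        generalize (1 - q^2 * w) * (1 * w - q^2) = m5
        ring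
      have e3 : fac y [x, 1, w, 0] = fac y [x, w] * (-(q^2 * y * (y - q^2)^2)) := by
        simp only [fac_cons, fac_nil]
        generalize (y - q^2 * x) * (y * x - q^2) = m1
        generalize (y - q^2 * w) * (y * w - q^2) = m5
        ring
      rw [e1, e2, e3]
      ring
    have hU1 : fac q [x, y] = (q - q^2 * x) * (q * x - q^2) * ((q - q^2 * y) * (q * y - q^2)) := by
      unfold fac
      simp only [List.map_cons, List.map_nil, List.prod_cons, List.prod_nil]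
      ring
    have hU2 : fac 1 [q^2 * y, w] = (1 - q^4 * y) * (q^2 * y - q^2) *
        ((1 - q^2 * w) * (w - q^2)) := by
      unfold fac
      simp only [List.map_cons, List.map_nil, List.prod_cons, List.prod_nil]
      ring
    rw [hU1, hU2]
    have hE := E_alg x y w
    generalize fac q [x, y, 1, q^2, q^2 * y, w] * (fac 1 [x, y, q^2 * y, w] * fac y [x, w]) = V at *
    generalize fac q [x, y, 1, 1, q^2, q^2 * y, w, 0] * fac 1 [x, y, 1, q^2 * y, w, 0] = C at *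
    generalize fac y [x, 1, w, 0] = F at *
    apply mul_left_cancel₀ hD
    apply mul_right_cancel₀ hne
    have k1 : q - q^2 * (q^2 * y) = q * (1 - y) := by linear_combination (-q * y) * h3
    have k12 : (q - q^2 * (q^2 * y)) + (1 - q^2 * y) = y - q^2 := by
      linear_combination (1 - y) * h - q * y * h3
    have k3 : (y - q) * (y - q^2) = y^2 + y + 1 := by linear_combination (-y) * h + h3
    obtain ⟨f1, hf1'⟩ : ∃ f1, f1 = -(w * (1 - q^2 * x) * (x - q^2)) := ⟨_, rfl⟩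
    obtain ⟨g1, hg1'⟩ : ∃ g1, g1 = x * (q - q^2 * w) * (q - w) := ⟨_, rfl⟩
    rw [← hf1', ← hg1'] at d1 d2 d3 d4
    have sA : (q * (q^2 * y) - q^2) * ((a * c * v1 + a * d * v2 + (b * c * v3 + b * d * v4)) *
        (x * y^2 * w)) * (x * y^2 * w) =
        (C * F) * ((q^4 * (x - q^2 * y) * (1 - q^2 * x * y) * (q - y) * (1 - y)) * w *
            ((1 - q^2 * y) * g1) +
          (q^4 * (1 - y)^2 * (y - q)^2) * (x * w) *
            (((q - q^2 * (q^2 * y)) + (1 - q^2 * y)) * (f1 + g1)) +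
          (q^3 * (1 - y) * (y - q) * (w - y) * (y * w - 1)) * x *
            ((q - q^2 * (q^2 * y)) * f1)) := by
      linear_combination (a * c * x^2 * y^4 * w^2) * d1 + (a * d * x^2 * y^4 * w^2) * d2 +
        (b * c * x^2 * y^4 * w^2) * d3 + (b * d * x^2 * y^4 * w^2) * d4 +
        (w * (C * F * ((1 - q^2 * y) * g1))) * hac +
        (x * w * (C * F * (((q - q^2 * (q^2 * y)) + (1 - q^2 * y)) * (f1 + g1)))) * hbc +
        (x * (C * F * ((q - q^2 * (q^2 * y)) * f1))) * hbd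
    have sB : (q^4 * (x - q^2 * y) * (1 - q^2 * x * y) * (q - y) * (1 - y)) * w *
            ((1 - q^2 * y) * g1) +
          (q^4 * (1 - y)^2 * (y - q)^2) * (x * w) *
            (((q - q^2 * (q^2 * y)) + (1 - q^2 * y)) * (f1 + g1)) +
          (q^3 * (1 - y) * (y - q) * (w - y) * (y * w - 1)) * x *
            ((q - q^2 * (q^2 * y)) * f1) =
        x * w * q^4 * (1 - y) * (y - q) * (q^2 * y * (y - q^2) * (q - q^2 * x) * (q * x - q^2) *
          (1 - q^2 * w) * (w - q^2)) := by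
      rw [← hE, k12, k1, ← hf1', ← hg1']
      have hg2 : (q^4 * (x - q^2 * y) * (1 - q^2 * x * y) * (q - y) * (1 - y)) * w *
            ((1 - q^2 * y) * g1) = x * w * q^4 * (1 - y) * (y - q) *
            (-((x - q^2 * y) * (1 - q^2 * x * y) * (1 - q^2 * y) * (q - q^2 * w) * (q - w))) := by
        rw [hg1']; ring
      have hf2 : (q^3 * (1 - y) * (y - q) * (w - y) * (y * w - 1)) * x * (q * (1 - y) * f1) =
          x * w * q^4 * (1 - y) * (y - q) *
            (-((w - y) * (y * w - 1) * (1 - y) * (1 - q^2 * x) * (x - q^2))) := by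
        rw [hf1']; ring
      linear_combination hg2 + hf2 + (x * w * q^4 * (1 - y)^2 * (y - q) * (f1 + g1)) * k3
    have m1 : (q - q^2)^2 = -3 := by linear_combination h + (q - 2) * h3
    have m2 : (1 - q^2)^2 = -(3 * q^2) := by linear_combination (q^2 - q + 1) * h
    have m3 : q^7 * (q - q^2)^2 * (1 - q^2)^2 = 9 := by
      rw [m1, m2]
      linear_combination (9 * (q^6 + q^3 + 1)) * h3
    have n1 : q * (q^2 * y) - q^2 = y - q^2 := by linear_combination y * h3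
    have n2 : q - q^2 * y = -(q^2 * (y - q^2)) := by linear_combination (-q) * h3
    have n3 : 1 - q^4 * y = -(q * (y - q^2)) := by linear_combination (-(1 + q * y)) * h3
    rw [sA, sB, hCF, m3, n1, n2, n3]
    ring

end Pool.Agent.Y448.TL
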