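import Pool.Agent.Y448.TL.Ev

/-!
Project TL, tasks A8 and A9: the case `|A| = |B| = 1` at two families of points.
-/

set_option autoImplicit false

namespace Pool.Agent.Y448.TL

open Pool.Agent.H988R2.Perc hiding X
open Pool.Agent.H988R2.Perc.T18
open Pool.Agent.H492C
open Pool.Agent.Y996.TL
open Finset Polynomial

theorem comb_bot2 : comb 2 St.bot St.bot = St.bot := by
  ext a b
  show (a = b ∨ (a < 2*2 ∧ b < 2*2 ∧ a = b) ∨ (2*2 ≤ a ∧ 2*2 ≤ b ∧ a - 2*2 = b - 2*2)) ↔ a = b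
  omega

theorem comb2_bot2 : comb2 2 (Finsupp.single St.bot 1) (Finsupp.single St.bot 1) =
    Finsupp.single St.bot 1 := by
  unfold comb2
  rw [Finsupp.sum_single_index, Finsupp.sum_single_index, comb_bot2, mul_one]
  · rw [mul_zero, Finsupp.single_zero]
  · simp [Finsupp.sum]

theorem GR3_one (x y : ℂ) : GR3 [x] [y] =
    msr (fun R => (St.act 1 R).rel 1 5) (Psi [x, 1, 1, 1, y, 0]) -
      msr (fun R => R.rel 1 5) (Psi [x, 1, 1, 1, y, 0]) := by
  have h1 : GR3 [x] [y] = pr3 1 5 (Psi [x, 1, 1, 1, y, 0])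
      (comb2 2 (Psi [x⁻¹, 0]) (Psi [y⁻¹, 0])) := by
    have e1 : ([x] : List ℂ).length = 1 := rfl
    have e2 : ([y] : List ℂ).length = 1 := rfl
    have e3 : (1 + 3 + 1 : ℕ) = 5 := rfl
    have e4 : ((1 + 3) / 2 : ℕ) = 2 := rfl
    have e5 : up1 [x] = Psi [x⁻¹, 0] := rfl
    have e6 : up1 [y] = Psi [y⁻¹, 0] := rfl
    have e7 : ([x] ++ 1 :: 1 :: 1 :: ([y] ++ [0]) : List ℂ) = [x, 1, 1, 1, y, 0] := rfl
    unfold GR3
    rw [e1, e2, e3, e4, e5, e6, e7]
  rw [h1, Psi_two, Psi_two, comb2_bot2, pr3_single, one_mul]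
  rw [msr_congr (fun R => jn_bot 1 5 (St.act 1 R)), msr_congr (fun R => jn_bot 1 5 R)]

theorem RH3_one (x y : ℂ) :
    RH3 [x] [y] = 9 * q * x * y * Z [x, 1, 1, y] := by
  unfold RH3
  have e1 : ([x] ++ [1] : List ℂ) = [x, 1] := rfl
  have e2 : ([y] ++ [1] : List ℂ) = [y, 1] := rfl
  have e3 : ([x] ++ 1 :: 1 :: [y] : List ℂ) = [x, 1, 1, y] := rfl
  rw [e1, e2, e3, Z_two, Z_two]
  have h3 := q_cube
  have h4 : q^4 = q := by linear_combination q * h3
  have e4 : (([x] : List ℂ).length : ℤ) = 1 := rfl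
  have e5 : (([y] : List ℂ).length : ℤ) = 1 := rfl
  have e6 : (2 - 1 : ℤ) = 1 := rfl
  have e7 : ([x] : List ℂ).length + ([y] : List ℂ).length + 2 = 4 := rfl
  rw [e4, e5, e6, e7, h4, zpow_one, zpow_one]
  simp only [List.prod_cons, List.prod_nil, mul_one]

open Classical in
theorem msr_four (P : St → Prop) (i : ℕ) (F f0 g0 : ℂ) :
    msr P (F • Finsupp.mapDomain (St.ins i) (Finsupp.single J f0 + Finsupp.single St.bot g0)) =
      F * (f0 * (if P (St.ins i J) then 1 else 0) + g0 * (if P (St.ins i St.bot) then 1 else 0)) := by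
  rw [msr_smul, msr_map, msr_add, msr_single, msr_single]

theorem a8 : S_A8 := by
  intro y hy
  have h3 := q_cube
  have hq2 : q^2 * q = 1 := by linear_combination h3
  have h2 : Psi [q, 1, 1, 1, y, 0] = fac q [1, 1, y, 0] •
      Finsupp.mapDomain (St.ins 0) (Psi [1, 1, y, 0]) := by
    have := Psi_rec [] [1, 1, y, 0] q ⟨2, rfl⟩
    rw [hq2] at this
    exact this
  rw [GR3_one, RH3_one, h2, Psi_four _ rfl, msr_four, msr_four]
  have r1 : Z [q, 1, 1, y] = fac q [1, y] := by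
    have := Z_rec [] [1, y] q ⟨1, rfl⟩
    rw [hq2] at this
    have e : ([] ++ [1, y] : List ℂ) = [1, y] := rfl
    rw [e, Z_two, mul_one] at this
    exact this
  rw [r1]
  have a1 : (St.act 1 (St.ins 0 J)).rel 1 5 := by
    simp [St.act_rel, St.ins_rel, St.low, rel_J]
  have a2 : ¬ (St.act 1 (St.ins 0 St.bot)).rel 1 5 := by
    simp [St.act_rel, St.ins_rel, St.low, rel_bot]
  have a3 : ¬ (St.ins 0 J).rel 1 5 := by
    simp [St.ins_rel]
  have a4 : ¬ (St.ins 0 St.bot).rel 1 5 := by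
    simp [St.ins_rel]
  rw [if_pos a1, if_neg a2, if_neg a3, if_neg a4, f_formula]
  have h := q_spec
  unfold fac
  simp only [List.map_cons, List.map_nil, List.prod_cons, List.prod_nil]
  generalize q = q at *
  grind

theorem msr_exch (P : St → Prop) (u v : List ℂ) (x y : ℂ) (h : Even (u.length + v.length)) :
    (q * x - q^2 * y) * msr P (Psi (u ++ y :: x :: v)) =
      (q * y - q^2 * x) * msr P (Psi (u ++ x :: y :: v)) +
      (y - x) * msr (fun R => P (St.act u.length R)) (Psi (u ++ x :: y :: v)) := by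
  have h1 := congrArg (msr P) (Psi_exch u v x y h)
  rw [msr_smul, msr_add, msr_smul, msr_smul, msr_map] at h1
  exact h1

/-- moving the parameter `x` to the left through three `1`'s -/
theorem move3 (P : St → Prop) (x y : ℂ) :
    (q - q^2 * x)^3 * msr P (Psi [x, 1, 1, 1, y, 0]) =
      (q * x - q^2)^3 * msr P (Psi [1, 1, 1, x, y, 0]) +
      (q * x - q^2)^2 * (x - 1) * (msr (fun R => P (St.act 0 R)) (Psi [1, 1, 1, x, y, 0]) +
        msr (fun R => P (St.act 1 R)) (Psi [1, 1, 1, x, y, 0]) +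
        msr (fun R => P (St.act 2 R)) (Psi [1, 1, 1, x, y, 0])) +
      (q * x - q^2) * (x - 1)^2 * (msr (fun R => P (St.act 0 (St.act 1 R))) (Psi [1, 1, 1, x, y, 0]) +
        msr (fun R => P (St.act 0 (St.act 2 R))) (Psi [1, 1, 1, x, y, 0]) +
        msr (fun R => P (St.act 1 (St.act 2 R))) (Psi [1, 1, 1, x, y, 0])) +
      (x - 1)^3 * msr (fun R => P (St.act 0 (St.act 1 (St.act 2 R)))) (Psi [1, 1, 1, x, y, 0]) := by
  have s0 : ∀ P : St → Prop, (q - q^2 * x) * msr P (Psi [x, 1, 1, 1, y, 0]) =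
      (q * x - q^2) * msr P (Psi [1, x, 1, 1, y, 0]) +
      (x - 1) * msr (fun R => P (St.act 0 R)) (Psi [1, x, 1, 1, y, 0]) := by
    intro P
    have := msr_exch P [] [1, 1, y, 0] 1 x ⟨2, rfl⟩
    rw [mul_one, mul_one] at this
    exact this
  have s1 : ∀ P : St → Prop, (q - q^2 * x) * msr P (Psi [1, x, 1, 1, y, 0]) =
      (q * x - q^2) * msr P (Psi [1, 1, x, 1, y, 0]) +
      (x - 1) * msr (fun R => P (St.act 1 R)) (Psi [1, 1, x, 1, y, 0]) := by
    intro P
    have := msr_exch P [1] [1, y, 0] 1 x ⟨2, rfl⟩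
    rw [mul_one, mul_one] at this
    exact this
  have s2 : ∀ P : St → Prop, (q - q^2 * x) * msr P (Psi [1, 1, x, 1, y, 0]) =
      (q * x - q^2) * msr P (Psi [1, 1, 1, x, y, 0]) +
      (x - 1) * msr (fun R => P (St.act 2 R)) (Psi [1, 1, 1, x, y, 0]) := by
    intro P
    have := msr_exch P [1, 1] [y, 0] 1 x ⟨2, rfl⟩
    rw [mul_one, mul_one] at this
    exact this
  have t2 := s2 P
  have t20 := s2 (fun R => P (St.act 0 R))
  have t21 := s2 (fun R => P (St.act 1 R))
  have t201 := s2 (fun R => P (St.act 0 (St.act 1 R)))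
  have t1 := s1 P
  have t10 := s1 (fun R => P (St.act 0 R))
  have t0 := s0 P
  generalize q - q^2 * x = D at *
  generalize q * x - q^2 = A at *
  generalize x - 1 = B at *
  linear_combination D^2 * t0 + A * D * t1 + B * D * t10 + A^2 * t2 + A * B * t21 +
    B * A * t20 + B^2 * t201

theorem Psi_wheel1 (u v w : List ℂ) (x : ℂ) (h : Even (u.length + v.length + w.length))
    (hy : ∃ y ∈ u ++ v ++ w, y * x = q^2) : Psi (u ++ x :: (v ++ (q^2 * x) :: w)) = 0 := by
  obtain ⟨m, hm⟩ := h.exists_two_nsmul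
  rw [smul_eq_mul] at hm
  have hl : (u ++ x :: (v ++ (q^2 * x) :: w)).length = 2 * (m+1) := by simp; omega
  rw [Psi_eq hl]
  refine Finset.sum_eq_zero fun w' hw' => ?_
  rw [(Fw_V hw').wheel1 u v w x (by omega) hy, Finsupp.single_zero]

theorem q_sq_sq : q^2 * q^2 = q := by
  have h3 := q_cube
  linear_combination q * h3

theorem a9 : S_A9 := by
  classical
  intro x hx
  rw [GR3_one, RH3_one]
  have r1 : Z [x, 1, 1, q^2 * x] = fac x [1, 1] := by
    have h1 : Z [x, 1, 1, q^2 * x] = Z [x, q^2 * x, 1, 1] := by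
      refine Z_perm ⟨2, rfl⟩ ?_
      refine List.Perm.cons _ ?_
      exact (List.perm_append_comm (l₁ := [1, 1]) (l₂ := [q^2 * x]))
    have := Z_rec [] [1, 1] x ⟨1, rfl⟩
    have e : ([] ++ [1, 1] : List ℂ) = [1, 1] := rfl
    rw [e, Z_two, mul_one] at this
    rw [h1]
    exact this
  rw [r1]
  by_cases hxq : x = q^2
  · have h1 := Psi_wheel1 [] [1, 1, 1] [0] (q^2) ⟨2, rfl⟩ ⟨1, by simp, one_mul _⟩
    have e : ([] ++ q^2 :: ([1, 1, 1] ++ (q^2 * q^2) :: [0]) : List ℂ) =
      [q^2, 1, 1, 1, q^2 * q^2, 0] := rfl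
    rw [e] at h1
    rw [hxq, h1]
    have e2 : fac (q^2) [1, 1] = 0 := by
      unfold fac
      simp
    rw [e2]
    simp [msr]
  · have hD : q - q^2 * x ≠ 0 := by
      intro h0
      apply hxq
      have h3 := q_cube
      linear_combination (-q) * h0 - x * h3
    have m1 := move3 (fun R => (St.act 1 R).rel 1 5) x (q^2 * x)
    have m2 := move3 (fun R => R.rel 1 5) x (q^2 * x)
    have h2 : Psi [1, 1, 1, x, q^2 * x, 0] = fac x [1, 1, 1, 0] •
        Finsupp.mapDomain (St.ins 3) (Psi [1, 1, 1, 0]) := Psi_rec [1, 1, 1] [0] x ⟨2, rfl⟩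
    have h4 := Psi_four [1, 1, 1, 0] rfl
    rw [h2, h4] at m1 m2
    simp only [msr_four, f_formula, g_formula] at m1 m2
    generalize msr (fun R => (St.act 1 R).rel 1 5) (Psi [x, 1, 1, 1, q^2 * x, 0]) = t1 at m1 ⊢
    generalize msr (fun R => R.rel 1 5) (Psi [x, 1, 1, 1, q^2 * x, 0]) = t2 at m2 ⊢
    simp [St.act_rel, St.ins_rel, St.low, rel_J, rel_bot] at m1 m2
    have h := q_spec
    have hg : T18.G 1 1 1 0 = 3 * q^2 := by
      unfold T18.G
      linear_combination (-q) * h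
    have hf : (1 - q^2) * (1 - q^2) * (q * q^2) = -(3 * q^2) := by
      have h3 := q_cube
      linear_combination ((1 - q^2) * (1 - q^2)) * h3 + (q^2 - q + 1) * h
    rw [hg, hf] at m1 m2
    have hF : fac x [1, 1, 1, 0] = (x - q^2)^6 * (-(q^2 * x)) := by
      unfold fac
      simp only [List.map_cons, List.map_nil, List.prod_cons, List.prod_nil]
      ring
    have hF2 : fac x [1, 1] = (x - q^2)^4 := by
      unfold fac
      simp only [List.map_cons, List.map_nil, List.prod_cons, List.prod_nil]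
      ring
    have hx1 : q * x - q^2 + (x - 1) = q - q^2 * x := by linear_combination (x - 1) * h
    have h3 := q_cube
    have hx2 : (q * x - q^2)^2 + (q * x - q^2) * (x - 1) + (x - 1)^2 = -(3 * x) := by
      linear_combination (x^2 - x + q^2 - q + 1) * h - 2 * x * h3
    have hx3 : (q - q^2 * x)^2 = q * (x - q^2)^2 := by
      linear_combination (q * x^2 - q^2) * h3
    apply mul_left_cancel₀ (pow_ne_zero 3 hD)
    rw [mul_sub, m1, m2, hF2]
    generalize fac x [1, 1, 1, 0] = F at *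
    clear m1 m2 h2 h4 r1 hF2 hf hg
    generalize q - q^2 * x = D at *
    generalize q * x - q^2 = a at *
    generalize x - 1 = b at *
    linear_combination 3 * q^2 * F * (a + b) * hx2 - 9 * q^2 * F * x * hx1 -
      9 * q^2 * x * D * hF - 9 * q^3 * x^2 * (x - q^2)^4 * D * hx3

end Pool.Agent.Y448.TL
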