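import Pool.Agent.Y996.TL.Stm
import Pool.Agent.H988R2.Perc.T14
import Pool.Agent.H988R2.Perc.T18

/-!
Project TL: evaluation of the pairings on explicit states.
-/

set_option autoImplicit false

namespace Pool.Agent.Y448.TL

open Pool.Agent.H988R2.Perc hiding X
open Pool.Agent.H988R2.Perc.T18
open Pool.Agent.H492C
open Pool.Agent.Y996.TL
open Finset Polynomial

open Classical in
/-- mass of the states with a property -/
noncomputable def msr (P : St → Prop) (f : St →₀ ℂ) : ℂ :=
  f.sum fun R a => a * (if P R then 1 else 0)

theorem msr_add (P : St → Prop) (f g : St →₀ ℂ) : msr P (f + g) = msr P f + msr P g := by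
  unfold msr
  exact Finsupp.sum_add_index' (by simp) (by intro R b1 b2; ring)

theorem msr_smul (P : St → Prop) (c : ℂ) (f : St →₀ ℂ) : msr P (c • f) = c * msr P f := by
  unfold msr
  rw [Finsupp.sum_smul_index' (by simp), Finsupp.mul_sum]
  refine Finsupp.sum_congr fun R _ => ?_
  rw [smul_eq_mul]
  ring

theorem msr_single (P : St → Prop) (R : St) (a : ℂ) [Decidable (P R)] :
    msr P (Finsupp.single R a) = a * (if P R then 1 else 0) := by
  unfold msr
  rw [Finsupp.sum_single_index (by simp)]
  congr

theorem msr_map (P : St → Prop) (h : St → St) (f : St →₀ ℂ) :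
    msr P (Finsupp.mapDomain h f) = msr (fun R => P (h R)) f := by
  unfold msr
  exact Finsupp.sum_mapDomain_index (by simp) (by intro R b1 b2; ring)

theorem msr_congr {P Q : St → Prop} (h : ∀ R, P R ↔ Q R) (f : St →₀ ℂ) : msr P f = msr Q f := by
  have : P = Q := funext fun R => propext (h R)
  rw [this]

theorem pairG_single (p r : ℕ) (f : St →₀ ℂ) (T : St) (b : ℂ) :
    pairG p r f (Finsupp.single T b) = b * msr (fun R => jn p r R T) f := by
  classical
  unfold pairG msr
  rw [Finsupp.mul_sum]
  refine Finsupp.sum_congr fun R _ => ?_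
  rw [Finsupp.sum_single_index (by simp)]
  ring

theorem pairG_add (p r : ℕ) (f g g' : St →₀ ℂ) :
    pairG p r f (g + g') = pairG p r f g + pairG p r f g' := by
  unfold pairG
  rw [← Finsupp.sum_add]
  refine Finsupp.sum_congr fun R _ => ?_
  exact Finsupp.sum_add_index' (by simp) (by intro R b1 b2; ring)

theorem pr3_single (a r : ℕ) (f : St →₀ ℂ) (T : St) (b : ℂ) :
    pr3 a r f (Finsupp.single T b) =
      b * (msr (fun R => jn a r (St.act a R) T) f - msr (fun R => jn a r R T) f) := by
  unfold pr3
  rw [pairG_single, pairG_single, msr_map]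
  ring

theorem pr3_add (a r : ℕ) (f g g' : St →₀ ℂ) :
    pr3 a r f (g + g') = pr3 a r f g + pr3 a r f g' := by
  unfold pr3
  rw [pairG_add, pairG_add]
  ring

theorem jn_bot (p r : ℕ) (R : St) : jn p r R St.bot ↔ R.rel p r := by
  constructor
  · intro h
    have key : ∀ a b, Relation.EqvGen (fun a b => R.rel a b ∨ St.bot.rel a b) a b → R.rel a b := by
      intro a b hab
      induction hab with
      | rel a b h =>
        rcases h with h | h
        · exact h
        · have h1 : a = b := h
          rw [h1]; exact R.eqv.refl _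
      | refl a => exact R.eqv.refl _
      | symm a b _ ih => exact R.eqv.symm ih
      | trans a b c _ _ i1 i2 => exact R.eqv.trans i1 i2
    exact key p r h
  · intro h
    exact Relation.EqvGen.rel _ _ (Or.inl h)

end Pool.Agent.Y448.TL
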